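import Mathlib

/-!
# Local resolving sets: counting private edges

`G` is a finite graph without `(ω+1)`-cliques, `ω ≥ 3`, and `W` a set of vertices. An edge is private to
`w ∈ W` if `w` is the only vertex of `W` which has different distances to its two ends. If each `w ∈ W` has a
private edge, then a selection of private edges has few members, except if some vertex outside of `W` is
the end of `ω - 1` selected edges whose other ends are the vertices themselves.
-/

set_option autoImplicit false
set_option linter.unusedSectionVars false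

namespace Pool.Agent.P8H50.LMD

open Finset

variable {V : Type} [Fintype V] [DecidableEq V] (G : SimpleGraph V)

/-- `W` is a local resolving set -/
def LR (W : Finset V) : Prop := ∀ u v, G.Adj u v → ∃ w ∈ W, G.dist w u ≠ G.dist w v

/-- the edge `uv` is private to `w` -/
def Pv (W : Finset V) (w u v : V) : Prop :=
  w ∈ W ∧ G.Adj u v ∧ G.dist w u ≠ G.dist w v ∧ ∀ x ∈ W, x ≠ w → G.dist x u = G.dist x v

variable {G}

lemma Pv.symm {W : Finset V} {w u v : V} (h : Pv G W w u v) : Pv G W w v u :=
  ⟨h.1, h.2.1.symm, h.2.2.1.symm, fun x hx hne => (h.2.2.2 x hx hne).symm⟩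

lemma Pv.left {W : Finset V} {w u v : V} (h : Pv G W w u v) (hu : u ∈ W) : u = w := by
  by_contra hne
  have h1 := h.2.2.2 u hu hne
  rw [SimpleGraph.dist_self, SimpleGraph.dist_eq_one_iff_adj.2 h.2.1] at h1
  exact absurd h1 (by norm_num)

lemma Pv.right {W : Finset V} {w u v : V} (h : Pv G W w u v) (hv : v ∈ W) : v = w :=
  h.symm.left hv

lemma Pv.unique {W : Finset V} {w w' u v : V} (h : Pv G W w u v) (h' : Pv G W w' u v) : w = w' := by
  by_contra hne
  exact h'.2.2.1 (h.2.2.2 w' h'.1 (Ne.symm hne))

lemma clique_card {ω : ℕ} (hfree : G.CliqueFree (ω + 1)) (S : Finset V)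
    (h : ∀ x ∈ S, ∀ y ∈ S, x ≠ y → G.Adj x y) : S.card ≤ ω := by
  by_contra hlt
  push Not at hlt
  obtain ⟨T, hT, hc⟩ := Finset.exists_subset_card_eq (s := S) (n := ω + 1) hlt
  refine hfree T ⟨?_, hc⟩
  intro x hx y hy hne
  exact h x (hT hx) y (hT hy) hne

/-- A system of edges with labels, every label having a function which is not constant on its edge only:
the classes generated by the edges have fewer labels than elements. -/
lemma exists_class (U : Finset V) (a b : V → V) (f : V → V → ℕ) (I : Finset V)
    (ha : ∀ w ∈ I, a w ∈ U) (hb : ∀ w ∈ I, b w ∈ U)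
    (hf : ∀ w ∈ I, f w (a w) ≠ f w (b w))
    (hff : ∀ w ∈ I, ∀ w' ∈ I, w' ≠ w → f w (a w') = f w (b w')) :
    ∃ c : V → V, (∀ w ∈ I, c (a w) = c (b w)) ∧
      (∀ x ∈ U, (I.filter (fun w => c (a w) = c x)).card + 1 ≤ (U.filter (fun y => c y = c x)).card) ∧
      (∀ g : V → ℕ, (∀ w ∈ I, g (a w) = g (b w)) → ∀ x y, c x = c y → g x = g y) := by
  induction I using Finset.induction_on with
  | empty =>
    refine ⟨id, by simp, ?_, ?_⟩
    · intro x hx
      simp only [filter_empty, card_empty, zero_add, id]
      exact Finset.card_pos.2 ⟨x, by simp [hx]⟩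
    · intro g _ x y hxy
      have : x = y := hxy
      rw [this]
  | insert w0 I hw0 ih =>
    obtain ⟨c, h1, h2, h3⟩ := ih (fun w hw => ha w (mem_insert_of_mem hw))
      (fun w hw => hb w (mem_insert_of_mem hw)) (fun w hw => hf w (mem_insert_of_mem hw))
      (fun w hw w' hw' hne => hff w (mem_insert_of_mem hw) w' (mem_insert_of_mem hw') hne)
    have hne : c (a w0) ≠ c (b w0) := by
      intro he
      refine hf w0 (mem_insert_self _ _) (h3 (f w0) ?_ _ _ he)
      intro w hw
      exact hff w0 (mem_insert_self _ _) w (mem_insert_of_mem hw) (fun e => hw0 (e ▸ hw))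
    set A := c (a w0) with hA
    set B := c (b w0) with hB
    let c' : V → V := fun x => if c x = B then A else c x
    have c'a : c' (a w0) = A := by simp only [c']; rw [if_neg hne]
    have c'b : c' (b w0) = A := by simp only [c']; rw [if_pos rfl]
    refine ⟨c', ?_, ?_, ?_⟩
    · intro w hw
      rcases mem_insert.1 hw with rfl | hw
      · rw [c'a, c'b]
      · simp only [c']; rw [h1 w hw]
    · intro x hx
      by_cases hk : c' x = A
      · rw [hk]
        have e1 : (U.filter (fun y => c' y = A)) =
            (U.filter (fun y => c y = A)) ∪ (U.filter (fun y => c y = B)) := by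
          ext y
          simp only [mem_filter, mem_union, c']
          by_cases hy : c y = B
          · simp only [hy, if_true, and_true]; tauto
          · simp [hy]
        have e2 : ((insert w0 I).filter (fun w => c' (a w) = A)) ⊆
            insert w0 ((I.filter (fun w => c (a w) = A)) ∪ (I.filter (fun w => c (a w) = B))) := by
          intro w hw
          simp only [mem_filter, mem_union, mem_insert] at hw ⊢
          rcases hw with ⟨hw | hw, hw'⟩
          · exact Or.inl hw
          · right
            simp only [c'] at hw'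
            by_cases hy : c (a w) = B
            · exact Or.inr ⟨hw, hy⟩
            · rw [if_neg hy] at hw'
              exact Or.inl ⟨hw, hw'⟩
        have hdisj : Disjoint (U.filter (fun y => c y = A)) (U.filter (fun y => c y = B)) := by
          rw [Finset.disjoint_left]
          intro y hy hy'
          simp only [mem_filter] at hy hy'
          exact hne (hy.2.symm.trans hy'.2)
        rw [e1, card_union_of_disjoint hdisj]
        have h5 := h2 (a w0) (ha w0 (mem_insert_self _ _))
        have h6 := h2 (b w0) (hb w0 (mem_insert_self _ _))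
        rw [← hA] at h5
        rw [← hB] at h6
        have h7 := (card_le_card e2).trans (card_insert_le _ _)
        have h8 := card_union_le (I.filter (fun w => c (a w) = A)) (I.filter (fun w => c (a w) = B))
        omega
      · have hxB : c x ≠ B := by
          intro e; apply hk; simp only [c']; rw [if_pos e]
        have hcx : c' x = c x := by simp only [c']; rw [if_neg hxB]
        rw [hcx] at hk ⊢
        have e1 : (U.filter (fun y => c' y = c x)) = (U.filter (fun y => c y = c x)) := by
          ext y
          simp only [mem_filter, c']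
          by_cases hy : c y = B
          · simp only [hy, if_true]
            constructor
            · rintro ⟨_, h⟩; exact absurd h.symm hk
            · rintro ⟨_, h⟩; exact absurd h.symm hxB
          · simp [hy]
        have e2 : ((insert w0 I).filter (fun w => c' (a w) = c x)) ⊆ (I.filter (fun w => c (a w) = c x)) := by
          intro w hw
          simp only [mem_filter, mem_insert] at hw ⊢
          rcases hw with ⟨rfl | hw, hw'⟩
          · rw [c'a] at hw'; exact absurd hw'.symm hk
          · refine ⟨hw, ?_⟩
            simp only [c'] at hw'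
            by_cases hy : c (a w) = B
            · rw [if_pos hy] at hw'; exact absurd hw'.symm hk
            · rwa [if_neg hy] at hw'
        rw [e1]
        exact (Nat.add_le_add_right (card_le_card e2) 1).trans (h2 x hx)
    · intro g hg x y hxy
      have hg' : ∀ w ∈ I, g (a w) = g (b w) := fun w hw => hg w (mem_insert_of_mem hw)
      have hg0 := hg w0 (mem_insert_self _ _)
      simp only [c'] at hxy
      by_cases hx : c x = B <;> by_cases hy : c y = B
      · exact h3 g hg' x y (hx.trans hy.symm)
      · rw [if_pos hx, if_neg hy] at hxy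
        rw [h3 g hg' x (b w0) hx, ← hg0, h3 g hg' (a w0) y hxy]
      · rw [if_neg hx, if_pos hy] at hxy
        rw [h3 g hg' y (b w0) hy, ← hg0, h3 g hg' x (a w0) hxy]
      · rw [if_neg hx, if_neg hy] at hxy
        exact h3 g hg' x y hxy

/-- a selection of private edges: `w ↦ (a w, b w)` with `b w ∉ W` and `a w = w` or `a w ∉ W` -/
def Sel (G : SimpleGraph V) (W : Finset V) (s : V → V × V) : Prop :=
  ∀ w ∈ W, Pv G W w (s w).1 (s w).2 ∧ (s w).2 ∉ W ∧ ((s w).1 = w ∨ (s w).1 ∉ W)

/-- the vertices of `W` whose selected edge joins them to `v` -/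
def KK (W : Finset V) (s : V → V × V) (v : V) : Finset V := W.filter (fun w => s w = (w, v))

/-- **Counting.** If no vertex outside of `W` is the end of `ω - 1` selected pendant edges, then `W` is small. -/
theorem count {ω : ℕ} (hω : 3 ≤ ω) (hfree : G.CliqueFree (ω + 1)) (W : Finset V) (s : V → V × V)
    (hs : Sel G W s) (hK : ∀ v, v ∉ W → (KK W s v).card ≤ ω - 2) :
    W.card ≤ (ω - 2) * Wᶜ.card := by
  classical
  set U := Wᶜ with hU
  have memU : ∀ x, x ∈ U ↔ x ∉ W := fun x => mem_compl
  set I := W.filter (fun w => (s w).1 ∉ W) with hI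
  set P := W.filter (fun w => ¬ (s w).1 ∉ W) with hP
  have hIP : I.card + P.card = W.card := card_filter_add_card_filter_not _
  have hPw : ∀ w ∈ P, (s w).1 = w := by
    intro w hw
    rw [hP, mem_filter] at hw
    exact (hs w hw.1).2.2.resolve_right hw.2
  have hWI : ∀ w ∈ I, w ∈ W := fun w hw => (mem_filter.1 hw).1
  have hWP : ∀ w ∈ P, w ∈ W := fun w hw => (mem_filter.1 hw).1
  obtain ⟨c, h1, h2, h3⟩ := exists_class U (fun w => (s w).1) (fun w => (s w).2) (fun w x => G.dist w x) I
    (fun w hw => (memU _).2 (mem_filter.1 hw).2) (fun w hw => (memU _).2 (hs w (hWI w hw)).2.1)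
    (fun w hw => (hs w (hWI w hw)).1.2.2.1)
    (fun w hw w' hw' hne => (hs w' (hWI w' hw')).1.2.2.2 w (hWI w hw) (Ne.symm hne))
  -- sums over the classes
  have s1 : I.card = ∑ k ∈ U.image c, (I.filter (fun w => c (s w).1 = k)).card := by
    apply card_eq_sum_card_fiberwise
    intro w hw
    exact mem_image_of_mem _ ((memU _).2 (mem_filter.1 hw).2)
  have s2 : P.card = ∑ k ∈ U.image c, (P.filter (fun w => c (s w).2 = k)).card := by
    apply card_eq_sum_card_fiberwise
    intro w hw
    exact mem_image_of_mem _ ((memU _).2 (hs w (hWP w hw)).2.1)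
  have s3 : U.card = ∑ k ∈ U.image c, (U.filter (fun y => c y = k)).card := by
    apply card_eq_sum_card_fiberwise
    intro w hw
    exact mem_image_of_mem _ hw
  rw [← hIP, s1, s2, s3, mul_sum, ← sum_add_distrib]
  refine sum_le_sum ?_
  intro k hk
  obtain ⟨x, hx, rfl⟩ := mem_image.1 hk
  have h4 := h2 x hx
  set PK := P.filter (fun w => c (s w).2 = c x) with hPK
  set C := U.filter (fun y => c y = c x) with hC
  set IK := I.filter (fun w => c (s w).1 = c x) with hIK
  have hPKP : ∀ w ∈ PK, w ∈ P := fun w hw => (mem_filter.1 hw).1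
  -- a pendant vertex is adjacent to the whole class
  have adj1 : ∀ w ∈ PK, ∀ y, c y = c x → G.Adj w y := by
    intro w hw y hy
    have hwP := hPKP w hw
    have hwW := hWP w hwP
    have hpv := (hs w hwW).1
    have hw1 := hPw w hwP
    have h5 : G.dist w (s w).2 = G.dist w y := by
      refine h3 (fun z => G.dist w z) ?_ _ _ ((mem_filter.1 hw).2.trans hy.symm)
      intro w' hw'
      refine (hs w' (hWI w' hw')).1.2.2.2 w hwW ?_
      rintro rfl
      exact (mem_filter.1 hwP).2 (mem_filter.1 hw').2
    have h6 : G.Adj w (s w).2 := by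
      have := hpv.2.1
      rwa [hw1] at this
    rw [← SimpleGraph.dist_eq_one_iff_adj] at h6 ⊢
    rw [← h5, h6]
  have adj2 : ∀ w ∈ PK, ∀ w' ∈ PK, w ≠ w' → G.Adj w w' := by
    intro w hw w' hw' hne
    have hwW := hWP w (hPKP w hw)
    have hwW' := hWP w' (hPKP w' hw')
    have h5 := (hs w' hwW').1.2.2.2 w hwW hne
    rw [hPw w' (hPKP w' hw')] at h5
    have h6 := adj1 w hw (s w').2 (mem_filter.1 hw').2
    rw [← SimpleGraph.dist_eq_one_iff_adj] at h6 ⊢
    rw [h5, h6]
  have hPKW : ∀ w ∈ PK, w ∈ W := fun w hw => hWP w (hPKP w hw)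
  have b1 : PK.card + 1 ≤ ω := by
    have hnot : x ∉ PK := fun h => (memU _).1 hx (hPKW x h)
    rw [← card_insert_of_notMem hnot]
    apply clique_card hfree
    intro y hy z hz hne
    rcases mem_insert.1 hy with rfl | hy <;> rcases mem_insert.1 hz with rfl | hz
    · exact absurd rfl hne
    · exact (adj1 z hz _ rfl).symm
    · exact adj1 y hy _ rfl
    · exact adj2 y hy z hz hne
  have hC1 : 1 ≤ C.card := by omega
  obtain ⟨m, rfl⟩ : ∃ m, ω = m + 3 := ⟨ω - 3, by omega⟩
  have e1 : m + 3 - 2 = m + 1 := by omega
  rw [e1] at hK ⊢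
  obtain ⟨t, ht⟩ : ∃ t, C.card = t + 1 := ⟨C.card - 1, by omega⟩
  rw [ht] at h4 ⊢
  have e2 : (m + 1) * (t + 1) = m * t + m + t + 1 := by ring
  rw [e2]
  by_cases hIe : IK = ∅
  · rw [hIe, card_empty, zero_add]
    rcases Nat.eq_zero_or_pos t with ht0 | ht0
    · subst ht0
      have hCx : C = {x} := by
        rw [zero_add, card_eq_one] at ht
        obtain ⟨y, hy⟩ := ht
        have : x ∈ C := mem_filter.2 ⟨hx, rfl⟩
        rw [hy, mem_singleton] at this
        rw [hy, this]
      have hsub : PK ⊆ KK W s x := by
        intro w hw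
        have hwW := hPKW w hw
        refine mem_filter.2 ⟨hwW, ?_⟩
        have h7 : (s w).2 ∈ C := mem_filter.2 ⟨(memU _).2 (hs w hwW).2.1, (mem_filter.1 hw).2⟩
        rw [hCx, mem_singleton] at h7
        exact Prod.ext (hPw w (hPKP w hw)) h7
      have := (card_le_card hsub).trans (hK x ((memU _).1 hx))
      omega
    · have : m * 1 ≤ m * t := Nat.mul_le_mul_left m ht0
      omega
  · obtain ⟨w0, hw0⟩ := Finset.nonempty_iff_ne_empty.2 hIe
    have hw0I : w0 ∈ I := (mem_filter.1 hw0).1
    have hc1 : c (s w0).1 = c x := (mem_filter.1 hw0).2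
    have hc2 : c (s w0).2 = c x := (h1 w0 hw0I).symm.trans hc1
    have hadj : G.Adj (s w0).1 (s w0).2 := (hs w0 (hWI w0 hw0I)).1.2.1
    have n1 : (s w0).1 ∉ W := (mem_filter.1 hw0I).2
    have n2 : (s w0).2 ∉ W := (hs w0 (hWI w0 hw0I)).2.1
    have b2 : PK.card + 2 ≤ m + 3 := by
      have hn2 : (s w0).2 ∉ PK := fun h => n2 (hPKW _ h)
      have hn1 : (s w0).1 ∉ insert (s w0).2 PK := by
        rw [mem_insert]
        rintro (h | h)
        · exact hadj.ne h
        · exact n1 (hPKW _ h)
      have : PK.card + 2 = (insert (s w0).1 (insert (s w0).2 PK)).card := by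
        rw [card_insert_of_notMem hn1, card_insert_of_notMem hn2]
      rw [this]
      apply clique_card hfree
      intro y hy z hz hne
      simp only [mem_insert] at hy hz
      rcases hy with rfl | rfl | hy <;> rcases hz with rfl | rfl | hz
      · exact absurd rfl hne
      · exact hadj
      · exact (adj1 z hz _ hc1).symm
      · exact hadj.symm
      · exact absurd rfl hne
      · exact (adj1 z hz _ hc2).symm
      · exact adj1 y hy _ hc1
      · exact adj1 y hy _ hc2
      · exact adj2 y hy z hz hne
    have h0 : 0 ≤ m * t := Nat.zero_le _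
    omega

end Pool.Agent.P8H50.LMD
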