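import Pool.Agent.P8H50.LMDCount

/-!
# Local resolving sets: the exchange argument

An exceptional pair of a minimum local resolving set `W` consists of a vertex `v ∉ W` and of `ω - 1` vertices
`k ∈ W` which form a clique with `v` and whose only private edge is `kv`. Such a vertex can be exchanged with
every vertex `z ∉ W` which is adjacent to exactly one of `k` and `v`. A minimum set whose sum of distances to a
fixed vertex `ρ` of degree at least `ω` is as small as possible leads to a minimum set without exceptional pairs.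
-/

set_option autoImplicit false
set_option linter.unusedSectionVars false

namespace Pool.Agent.P8H50.LMD

open Finset

variable {V : Type} [Fintype V] [DecidableEq V] {G : SimpleGraph V}

/-- an exceptional pair -/
def Exc (G : SimpleGraph V) (ω : ℕ) (W K : Finset V) (v : V) : Prop :=
  K ⊆ W ∧ K.card + 1 = ω ∧ v ∉ W ∧ (∀ k ∈ K, Pv G W k k v) ∧
    ∀ k ∈ K, ∀ x y, Pv G W k x y → (x = k ∧ y = v) ∨ (x = v ∧ y = k)

/-- every private edge can be written as `(x, y)` with `y ∉ W` and `x = k` or `x ∉ W` -/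
lemma normal {W : Finset V} {k x y : V} (h : Pv G W k x y) :
    ∃ x' y', Pv G W k x' y' ∧ y' ∉ W ∧ (x' = k ∨ x' ∉ W) ∧ ((x' = x ∧ y' = y) ∨ (x' = y ∧ y' = x)) := by
  by_cases hy : y ∈ W
  · have hyk := h.right hy
    have hx : x ∉ W := by
      intro hx
      have := h.left hx
      exact h.2.1.ne (this.trans hyk.symm)
    exact ⟨y, x, h.symm, hx, Or.inl hyk, Or.inr ⟨rfl, rfl⟩⟩
  · refine ⟨x, y, h, hy, ?_, Or.inl ⟨rfl, rfl⟩⟩
    by_cases hx : x ∈ W
    · exact Or.inl (h.left hx)
    · exact Or.inr hx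

lemma KK_card {ω : ℕ} (hfree : G.CliqueFree (ω + 1)) {W : Finset V} {v : V} (hv : v ∉ W) (K : Finset V)
    (hK : ∀ k ∈ K, Pv G W k k v) : K.card + 1 ≤ ω := by
  have hKW : ∀ k ∈ K, k ∈ W := fun k hk => (hK k hk).1
  have hnot : v ∉ K := fun h => hv (hKW v h)
  rw [← card_insert_of_notMem hnot]
  apply clique_card hfree
  intro y hy z hz hne
  rcases mem_insert.1 hy with rfl | hy' <;> rcases mem_insert.1 hz with rfl | hz'
  · exact absurd rfl hne
  · exact (hK z hz').2.1.symm
  · exact (hK y hy').2.1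
  · have h1 := (hK z hz').2.2.2 y (hKW y hy') hne
    have h2 := (hK y hy').2.1
    rw [← SimpleGraph.dist_eq_one_iff_adj] at h2 ⊢
    rw [h1, h2]

/-- improving the selection -/
lemma improve {ω : ℕ} (hω : 3 ≤ ω) (hfree : G.CliqueFree (ω + 1)) {W : Finset V}
    (hno : ∀ K v, ¬ Exc G ω W K v) :
    ∀ (N : ℕ) (s : V → V × V), Sel G W s → (Wᶜ.filter (fun v => ω - 2 < (KK W s v).card)).card = N →
      ∃ s', Sel G W s' ∧ ∀ v, v ∉ W → (KK W s' v).card ≤ ω - 2 := by
  intro N
  induction N using Nat.strong_induction_on with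
  | _ N ih =>
    intro s hs hN
    rcases Nat.eq_zero_or_pos N with h0 | hpos
    · subst h0
      rw [card_eq_zero] at hN
      refine ⟨s, hs, fun v hv => ?_⟩
      by_contra hlt
      push Not at hlt
      have : v ∈ Wᶜ.filter (fun v => ω - 2 < (KK W s v).card) := mem_filter.2 ⟨mem_compl.2 hv, hlt⟩
      rw [hN] at this
      exact absurd this (notMem_empty v)
    · rw [← hN] at hpos
      obtain ⟨v, hv⟩ := Finset.card_pos.1 hpos
      rw [mem_filter, mem_compl] at hv
      obtain ⟨hvW, hvK⟩ := hv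
      set K := KK W s v with hKdef
      have hKs : ∀ k ∈ K, s k = (k, v) := fun k hk => (mem_filter.1 hk).2
      have hKW : ∀ k ∈ K, k ∈ W := fun k hk => (mem_filter.1 hk).1
      have hKp : ∀ k ∈ K, Pv G W k k v := by
        intro k hk
        have := (hs k (hKW k hk)).1
        rwa [hKs k hk] at this
      have hKc : K.card + 1 = ω := by
        have := KK_card hfree hvW K hKp
        omega
      -- some `k` has another private edge
      have hex : ∃ k ∈ K, ∃ x y, Pv G W k x y ∧ ¬ ((x = k ∧ y = v) ∨ (x = v ∧ y = k)) := by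
        by_contra hcon
        push Not at hcon
        refine hno K v ⟨hKW, hKc, hvW, hKp, ?_⟩
        intro k hk x y hxy
        by_contra hne
        push Not at hne
        have := hcon k hk x y hxy
        tauto
      obtain ⟨k, hk, x0, y0, hxy0, hne0⟩ := hex
      obtain ⟨x, y, hxy, hyW, hx, hor⟩ := normal hxy0
      have hne : ¬ (x = k ∧ y = v) := by
        rintro ⟨rfl, rfl⟩
        rcases hor with ⟨h1, h2⟩ | ⟨h1, h2⟩
        · exact hne0 (Or.inl ⟨h1.symm, h2.symm⟩)
        · exact hne0 (Or.inr ⟨h2.symm, h1.symm⟩)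
      let s' : V → V × V := Function.update s k (x, y)
      have hs'k : s' k = (x, y) := Function.update_self _ _ _
      have hs'n : ∀ w, w ≠ k → s' w = s w := fun w hw => Function.update_of_ne hw _ _
      have hs' : Sel G W s' := by
        intro w hw
        by_cases hwk : w = k
        · subst hwk
          rw [hs'k]
          exact ⟨hxy, hyW, hx⟩
        · rw [hs'n w hwk]
          exact hs w hw
      -- sizes
      have hother : ∀ u, u ∉ W → u ≠ v → ω - 2 < (KK W s' u).card → ω - 2 < (KK W s u).card := by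
        intro u hu huv hlt
        by_cases hku : (x, y) = (k, u)
        · -- then no old vertex is selected at `u`
          exfalso
          have hxk : x = k := congrArg Prod.fst hku
          have hyu : y = u := congrArg Prod.snd hku
          subst hyu
          rw [hxk] at hxy
          have hold : KK W s y = ∅ := by
            rw [← not_nonempty_iff_eq_empty]
            rintro ⟨w, hw⟩
            have hwW : w ∈ W := (mem_filter.1 hw).1
            have hsw : s w = (w, y) := (mem_filter.1 hw).2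
            have hwK : ∀ p ∈ K, w ≠ p := by
              rintro p hp rfl
              have := (hKs w hp).symm.trans hsw
              exact huv (congrArg Prod.snd this).symm
            have hpw : Pv G W w w y := by
              have := (hs w hwW).1
              rwa [hsw] at this
            have d1 : G.dist w y = 1 := SimpleGraph.dist_eq_one_iff_adj.2 hpw.2.1
            have d2 : G.dist w k = 1 := by
              rw [hxy.2.2.2 w hwW (hwK k hk), d1]
            have d3 : G.dist w v = 1 := by
              rw [← (hKp k hk).2.2.2 w hwW (hwK k hk), d2]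
            have d4 : ∀ p ∈ K, G.dist w p = 1 := by
              intro p hp
              rw [(hKp p hp).2.2.2 w hwW (hwK p hp), d3]
            have hvK' : v ∉ K := fun h => hvW (hKW v h)
            have hwn : w ∉ insert v K := by
              rw [mem_insert]
              rintro (rfl | h)
              · exact hvW hwW
              · exact hwK w h rfl
            have hcard : (insert w (insert v K)).card = ω + 1 := by
              rw [card_insert_of_notMem hwn, card_insert_of_notMem hvK', hKc]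
            have := clique_card hfree (insert w (insert v K)) (by
              intro a ha b hb hab
              simp only [mem_insert] at ha hb
              rcases ha with rfl | rfl | ha <;> rcases hb with rfl | rfl | hb
              · exact absurd rfl hab
              · exact SimpleGraph.dist_eq_one_iff_adj.1 d3
              · exact SimpleGraph.dist_eq_one_iff_adj.1 (d4 b hb)
              · exact (SimpleGraph.dist_eq_one_iff_adj.1 d3).symm
              · exact absurd rfl hab
              · exact (hKp b hb).2.1.symm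
              · exact (SimpleGraph.dist_eq_one_iff_adj.1 (d4 a ha)).symm
              · exact (hKp a ha).2.1
              · have h1 := (hKp b hb).2.2.2 a (hKW a ha) hab
                have h2 := (hKp a ha).2.1
                rw [← SimpleGraph.dist_eq_one_iff_adj] at h2 ⊢
                rw [h1, h2])
            omega
          have hsub : KK W s' y ⊆ {k} := by
            intro w hw
            rw [mem_singleton]
            by_contra hwk
            have : w ∈ KK W s y := by
              refine mem_filter.2 ⟨(mem_filter.1 hw).1, ?_⟩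
              rw [← hs'n w hwk]
              exact (mem_filter.1 hw).2
            rw [hold] at this
            exact absurd this (notMem_empty w)
          have := card_le_card hsub
          rw [card_singleton] at this
          omega
        · refine lt_of_lt_of_le hlt (card_le_card ?_)
          intro w hw
          have hwk : w ≠ k := by
            rintro rfl
            have h1 := (mem_filter.1 hw).2
            rw [hs'k] at h1
            exact hku h1
          refine mem_filter.2 ⟨(mem_filter.1 hw).1, ?_⟩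
          rw [← hs'n w hwk]
          exact (mem_filter.1 hw).2
      have hv' : ¬ ω - 2 < (KK W s' v).card := by
        have hsub : KK W s' v ⊆ K.erase k := by
          intro w hw
          have hwk : w ≠ k := by
            rintro rfl
            have h1 := (mem_filter.1 hw).2
            rw [hs'k] at h1
            exact hne ⟨congrArg Prod.fst h1, congrArg Prod.snd h1⟩
          refine mem_erase.2 ⟨hwk, mem_filter.2 ⟨(mem_filter.1 hw).1, ?_⟩⟩
          rw [← hs'n w hwk]
          exact (mem_filter.1 hw).2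
        have := card_le_card hsub
        rw [card_erase_of_mem hk] at this
        omega
      refine ih _ ?_ s' hs' rfl
      rw [← hN]
      apply card_lt_card
      rw [ssubset_iff_of_subset]
      · exact ⟨v, mem_filter.2 ⟨mem_compl.2 hvW, hvK⟩, fun h => hv' (mem_filter.1 h).2⟩
      · intro u hu
        rw [mem_filter, mem_compl] at hu ⊢
        have huv : u ≠ v := by
          rintro rfl
          exact hv' hu.2
        exact ⟨hu.1, hother u hu.1 huv hu.2⟩

/-- a minimum local resolving set: every member has a private edge -/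
lemma exists_private {W : Finset V} (hW : LR G W) (hmin : ∀ W', LR G W' → W.card ≤ W'.card) {w : V} (hw : w ∈ W) :
    ∃ x y, Pv G W w x y := by
  by_contra hcon
  push Not at hcon
  have : LR G (W.erase w) := by
    intro u v huv
    obtain ⟨x, hx, hd⟩ := hW u v huv
    by_cases hxw : x = w
    · subst hxw
      have h1 := hcon u v
      unfold Pv at h1
      push Not at h1
      obtain ⟨y, hy, hyx, hyd⟩ := h1 hw huv hd
      exact ⟨y, mem_erase.2 ⟨hyx, hy⟩, hyd⟩
    · exact ⟨x, mem_erase.2 ⟨hxw, hx⟩, hd⟩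
  have h2 := hmin _ this
  rw [card_erase_of_mem hw] at h2
  have h3 : 0 < W.card := card_pos.2 ⟨w, hw⟩
  omega

theorem bound_of_no_exc {ω : ℕ} (hω : 3 ≤ ω) (hfree : G.CliqueFree (ω + 1)) {W : Finset V}
    (hW : LR G W) (hmin : ∀ W', LR G W' → W.card ≤ W'.card) (hno : ∀ K v, ¬ Exc G ω W K v) :
    W.card ≤ (ω - 2) * Wᶜ.card := by
  classical
  have hsel : ∀ w, ∃ p : V × V, w ∈ W → Pv G W w p.1 p.2 ∧ p.2 ∉ W ∧ (p.1 = w ∨ p.1 ∉ W) := by
    intro w
    by_cases hw : w ∈ W
    · obtain ⟨x, y, hxy⟩ := exists_private hW hmin hw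
      obtain ⟨x', y', h1, h2, h3, -⟩ := normal hxy
      exact ⟨(x', y'), fun _ => ⟨h1, h2, h3⟩⟩
    · exact ⟨(w, w), fun h => absurd h hw⟩
  choose s hs using hsel
  obtain ⟨s', hs', hK⟩ := improve hω hfree hno _ s (fun w hw => hs w hw) rfl
  exact count hω hfree W s' hs' hK

section exchange

variable {ω : ℕ} {W K : Finset V} {v : V}

lemma Exc.notMem (h : Exc G ω W K v) : v ∉ K := fun hv => h.2.2.1 (h.1 hv)

lemma Exc.adj (h : Exc G ω W K v) : ∀ x ∈ insert v K, ∀ y ∈ insert v K, x ≠ y → G.Adj x y := by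
  intro y hy z hz hne
  obtain ⟨hKW, -, -, hK, -⟩ := h
  rcases mem_insert.1 hy with rfl | hy' <;> rcases mem_insert.1 hz with rfl | hz'
  · exact absurd rfl hne
  · exact (hK z hz').2.1.symm
  · exact (hK y hy').2.1
  · have h1 := (hK z hz').2.2.2 y (hKW hy') hne
    have h2 := (hK y hy').2.1
    rw [← SimpleGraph.dist_eq_one_iff_adj] at h2 ⊢
    rw [h1, h2]

/-- every vertex outside of the clique misses a vertex of the clique -/
lemma Exc.split (hfree : G.CliqueFree (ω + 1)) (h : Exc G ω W K v) {z : V} (hz : z ∉ insert v K) :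
    ∃ y ∈ insert v K, ¬ G.Adj z y := by
  by_contra hcon
  push Not at hcon
  have hcard : (insert z (insert v K)).card = ω + 1 := by
    rw [card_insert_of_notMem hz, card_insert_of_notMem h.notMem, h.2.1]
  have := clique_card hfree (insert z (insert v K)) (by
    intro a ha b hb hab
    rcases mem_insert.1 ha with rfl | ha' <;> rcases mem_insert.1 hb with rfl | hb'
    · exact absurd rfl hab
    · exact hcon b hb'
    · exact (hcon a ha').symm
    · exact h.adj a ha' b hb' hab)
  omega

/-- the neighbours of the clique in `W` belong to the clique -/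
lemma Exc.nbr (hfree : G.CliqueFree (ω + 1)) (h : Exc G ω W K v) {x y : V} (hx : x ∈ W) (hy : y ∈ insert v K)
    (hxy : G.Adj x y) : x ∈ K := by
  by_contra hxK
  have hxv : x ≠ v := fun e => h.2.2.1 (e ▸ hx)
  have hconst : ∀ k ∈ K, G.dist x k = G.dist x v := fun k hk =>
    (h.2.2.2.1 k hk).2.2.2 x hx (fun e => hxK (e ▸ hk))
  obtain ⟨z, hz, hnz⟩ := h.split hfree (z := x) (by
    rw [mem_insert]; rintro (e | e)
    · exact hxv e
    · exact hxK e)
  have hc2 : ∀ k ∈ insert v K, G.dist x k = G.dist x v := by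
    intro k hk
    rcases mem_insert.1 hk with rfl | hk
    · rfl
    · exact hconst k hk
  apply hnz
  rw [← SimpleGraph.dist_eq_one_iff_adj] at hxy ⊢
  rw [hc2 z hz, ← hc2 y hy, hxy]

/-- the exchange -/
lemma Exc.exchange (hW : LR G W) (h : Exc G ω W K v) {z q : V} (hz : z ∉ W) (hzv : z ≠ v) (hq : q ∈ K)
    (hzq : (G.Adj z v ∧ ¬ G.Adj z q) ∨ (¬ G.Adj z v ∧ G.Adj z q)) :
    LR G (insert z (W.erase q)) ∧ (insert z (W.erase q)).card = W.card := by
  have hqW : q ∈ W := h.1 hq
  have hzq' : z ≠ q := fun e => hz (e ▸ hqW)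
  constructor
  · intro a b hab
    by_cases hex : ∃ w ∈ W, w ≠ q ∧ G.dist w a ≠ G.dist w b
    · obtain ⟨w, hw, hwq, hd⟩ := hex
      exact ⟨w, mem_insert_of_mem (mem_erase.2 ⟨hwq, hw⟩), hd⟩
    · push Not at hex
      obtain ⟨w, hw, hd⟩ := hW a b hab
      have hwq : w = q := by
        by_contra hne
        exact hd (hex w hw hne)
      subst hwq
      have hp : Pv G W w a b := ⟨hqW, hab, hd, hex⟩
      refine ⟨z, mem_insert_self _ _, ?_⟩
      have key : G.dist z w ≠ G.dist z v := by
        rcases hzq with ⟨h1, h2⟩ | ⟨h1, h2⟩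
        · rw [← SimpleGraph.dist_eq_one_iff_adj] at h1 h2
          rw [h1]; exact h2
        · rw [← SimpleGraph.dist_eq_one_iff_adj] at h1 h2
          rw [h2]; exact fun e => h1 e.symm
      rcases h.2.2.2.2 w hq a b hp with ⟨rfl, rfl⟩ | ⟨rfl, rfl⟩
      · exact key
      · exact key.symm
  · rw [card_insert_of_notMem (fun hm => hz (mem_of_mem_erase hm)), card_erase_of_mem hqW]
    have : 0 < W.card := card_pos.2 ⟨q, hqW⟩
    omega

/-- exceptional pairs after the exchange -/
lemma Exc.after (hfree : G.CliqueFree (ω + 1)) (hω : 3 ≤ ω) (hW : LR G W) (h : Exc G ω W K v) {z q : V}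
    (hz : z ∉ W) (hzv : z ≠ v) (hq : q ∈ K) {K' : Finset V} {v' : V}
    (h' : Exc G ω (insert z (W.erase q)) K' v') :
    z ∉ K' ∧ K' ⊆ W.erase q ∧ v' ≠ q ∧ Disjoint K' K ∧ v' ≠ v := by
  have hqW : q ∈ W := h.1 hq
  have hzq : z ≠ q := fun e => hz (e ▸ hqW)
  have hv'z : v' ≠ z := fun e => h'.2.2.1 (e ▸ mem_insert_self _ _)
  have c1 : z ∉ K' := by
    intro hzK
    have hp := h'.2.2.2.1 z hzK
    obtain ⟨w, hw, hd⟩ := hW z v' hp.2.1
    have hex : ∀ x ∈ W, x ≠ q → G.dist x z = G.dist x v' := fun x hx hxq =>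
      hp.2.2.2 x (mem_insert_of_mem (mem_erase.2 ⟨hxq, hx⟩)) (fun e => hz (e ▸ hx))
    have hwq : w = q := by
      by_contra hne
      exact hd (hex w hw hne)
    subst hwq
    have hpq : Pv G W w z v' := ⟨hqW, hp.2.1, hd, hex⟩
    rcases h.2.2.2.2 w hq z v' hpq with ⟨e, -⟩ | ⟨e, -⟩
    · exact hzq e
    · exact hzv e
  have c2 : K' ⊆ W.erase q := by
    intro x hx
    rcases mem_insert.1 (h'.1 hx) with e | e
    · exact absurd (e ▸ hx) c1
    · exact e
  have hcK := h.2.1
  have hcK' := h'.2.1
  have c3 : v' ≠ q := by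
    rintro rfl
    have hsub : K' ⊆ K.erase v' := by
      intro x hx
      have hxW := c2 hx
      rw [mem_erase] at hxW ⊢
      exact ⟨hxW.1, h.nbr hfree hxW.2 (mem_insert_of_mem hq) (h'.2.2.2.1 x hx).2.1⟩
    have := card_le_card hsub
    rw [card_erase_of_mem hq] at this
    omega
  have c4 : Disjoint K' K := by
    rw [Finset.disjoint_left]
    intro p hp hpK
    have hpq : p ≠ q := (mem_erase.1 (c2 hp)).1
    have hsub : K' ⊆ K.erase q := by
      intro x hx
      have hxW := c2 hx
      rw [mem_erase] at hxW ⊢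
      refine ⟨hxW.1, ?_⟩
      by_cases hxp : x = p
      · rw [hxp]; exact hpK
      · exact h.nbr hfree hxW.2 (mem_insert_of_mem hpK)
          (h'.adj x (mem_insert_of_mem hx) p (mem_insert_of_mem hp) hxp)
    have := card_le_card hsub
    rw [card_erase_of_mem hq] at this
    omega
  have c5 : v' ≠ v := by
    rintro rfl
    have hsub : K' ⊆ K.erase q := by
      intro x hx
      have hxW := c2 hx
      rw [mem_erase] at hxW ⊢
      exact ⟨hxW.1, h.nbr hfree hxW.2 (mem_insert_self _ _) (h'.2.2.2.1 x hx).2.1⟩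
    have := card_le_card hsub
    rw [card_erase_of_mem hq] at this
    omega
  exact ⟨c1, c2, c3, c4, c5⟩

end exchange

/-- the sum of the distances to `ρ` -/
noncomputable def Phi (G : SimpleGraph V) (ρ : V) (W : Finset V) : ℕ := ∑ w ∈ W, G.dist ρ w

lemma Phi_exchange (ρ : V) {W : Finset V} {z q : V} (hz : z ∉ W) (hq : q ∈ W) :
    Phi G ρ (insert z (W.erase q)) + G.dist ρ q = Phi G ρ W + G.dist ρ z := by
  unfold Phi
  rw [sum_insert (fun hm => hz (mem_of_mem_erase hm)), ← Finset.add_sum_erase W _ hq]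
  ring

section main

variable {ω : ℕ} {ρ : V}

/-- if `ρ` is outside of the clique of an exceptional pair, a vertex of the clique can be exchanged with a vertex
which is nearer to `ρ` -/
lemma Exc.closer (hconn : G.Connected) (hfree : G.CliqueFree (ω + 1)) {W K : Finset V} {v : V}
    (h : Exc G ω W K v) (hρ : ρ ∉ insert v K) :
    ∃ z q D, z ∉ W ∧ z ≠ v ∧ q ∈ K ∧ ((G.Adj z v ∧ ¬ G.Adj z q) ∨ (¬ G.Adj z v ∧ G.Adj z q)) ∧
      G.dist ρ z = D ∧ (∀ x ∈ insert v K, D + 1 ≤ G.dist ρ x) ∧ (∃ x ∈ insert v K, G.dist ρ x = D + 1) := by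
  obtain ⟨y, hy, hmin⟩ := exists_min_image (insert v K) (fun x => G.dist ρ x) ⟨v, mem_insert_self _ _⟩
  have hyρ : y ≠ ρ := fun e => hρ (e ▸ hy)
  have hpos : 0 < G.dist ρ y := hconn.pos_dist_of_ne hyρ.symm
  obtain ⟨D, hD⟩ : ∃ D, G.dist ρ y = D + 1 := ⟨G.dist ρ y - 1, by omega⟩
  -- a neighbour of `y` nearer to `ρ`
  obtain ⟨z, hzy, hzd⟩ : ∃ z, G.Adj z y ∧ G.dist ρ z = D := by
    obtain ⟨p, hp⟩ := hconn.exists_walk_length_eq_dist ρ y
    have hlen : p.length = D + 1 := by rw [hp, hD]
    have hnn : ¬ p.Nil := by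
      intro hn
      have := SimpleGraph.Walk.length_eq_zero_iff.2 hn
      omega
    refine ⟨p.penultimate, p.adj_penultimate hnn, ?_⟩
    have h1 : G.dist ρ p.penultimate ≤ D := by
      have := SimpleGraph.dist_le p.dropLast
      have h2 : p.dropLast.length + 1 = p.length := by
        have := p.length_dropLast_add_one hnn
        exact this
      omega
    have h3 : G.dist ρ y ≤ G.dist ρ p.penultimate + G.dist p.penultimate y := hconn.dist_triangle
    have h4 : G.dist p.penultimate y = 1 := SimpleGraph.dist_eq_one_iff_adj.2 (p.adj_penultimate hnn)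
    omega
  have hzQ : z ∉ insert v K := by
    intro hz
    have := hmin z hz
    omega
  have hzv : z ≠ v := fun e => hzQ (e ▸ mem_insert_self _ _)
  have hzK : z ∉ K := fun hm => hzQ (mem_insert_of_mem hm)
  have hzW : z ∉ W := fun hm => hzK (h.nbr hfree hm hy hzy)
  obtain ⟨y', hy', hny'⟩ := h.split hfree hzQ
  have hall : ∀ x ∈ insert v K, D + 1 ≤ G.dist ρ x := fun x hx => hD ▸ hmin x hx
  by_cases hzav : G.Adj z v
  · have hy'K : y' ∈ K := by
      rcases mem_insert.1 hy' with e | e
      · exact absurd (e ▸ hzav) hny'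
      · exact e
    exact ⟨z, y', D, hzW, hzv, hy'K, Or.inl ⟨hzav, hny'⟩, hzd, hall, ⟨y, hy, hD⟩⟩
  · have hyK : y ∈ K := by
      rcases mem_insert.1 hy with e | e
      · exact absurd (e ▸ hzy) hzav
      · exact e
    exact ⟨z, y, D, hzW, hzv, hyK, Or.inr ⟨hzav, hzy⟩, hzd, hall, ⟨y, hy, hD⟩⟩

/-- There is a minimum local resolving set without exceptional pairs. -/
theorem exists_good (hconn : G.Connected) (hω : 3 ≤ ω) (hfree : G.CliqueFree (ω + 1))
    (hρ : ∀ Q : Finset V, Q.card = ω → ρ ∈ Q → ∃ z, G.Adj ρ z ∧ z ∉ Q) :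
    ∃ W, LR G W ∧ (∀ W', LR G W' → W.card ≤ W'.card) ∧ ∀ K v, ¬ Exc G ω W K v := by
  classical
  -- a minimum set
  obtain ⟨W₀, hW₀, hmin₀⟩ := exists_min_image (univ.filter (fun W : Finset V => LR G W)) card (by
    refine ⟨univ, mem_filter.2 ⟨mem_univ _, fun u v huv => ⟨u, mem_univ _, ?_⟩⟩⟩
    rw [SimpleGraph.dist_self, SimpleGraph.dist_eq_one_iff_adj.2 huv]
    norm_num)
  have hmin0 : ∀ W', LR G W' → W₀.card ≤ W'.card := fun W' h => hmin₀ W' (mem_filter.2 ⟨mem_univ _, h⟩)
  have hLR0 : LR G W₀ := (mem_filter.1 hW₀).2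
  obtain ⟨W, hW, hminΦ⟩ := exists_min_image
    (univ.filter (fun W : Finset V => LR G W ∧ W.card = W₀.card)) (Phi G ρ)
    ⟨W₀, mem_filter.2 ⟨mem_univ _, hLR0, rfl⟩⟩
  obtain ⟨-, hLR, hcard⟩ := mem_filter.1 hW
  set m := Phi G ρ W with hm
  -- minimum sets
  let M : Finset V → Prop := fun W' => LR G W' ∧ W'.card = W₀.card
  have hMmin : ∀ W', M W' → ∀ W'', LR G W'' → W'.card ≤ W''.card := by
    intro W' h W'' h''
    rw [h.2]
    exact hmin0 W'' h''
  have hMΦ : ∀ W', M W' → m ≤ Phi G ρ W' := fun W' h => hminΦ W' (mem_filter.2 ⟨mem_univ _, h⟩)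
  have hMW : M W := ⟨hLR, hcard⟩
  by_contra hcon
  push Not at hcon
  have hexc : ∀ W', M W' → ∃ K v, Exc G ω W' K v := fun W' h => hcon W' h.1 (hMmin W' h)
  -- the exchange stays inside `M`
  have hstep : ∀ W', M W' → ∀ K v, Exc G ω W' K v → ∀ z q, z ∉ W' → z ≠ v → q ∈ K →
      ((G.Adj z v ∧ ¬ G.Adj z q) ∨ (¬ G.Adj z v ∧ G.Adj z q)) → M (insert z (W'.erase q)) := by
    intro W' h K v hE z q hz hzv hq hzq
    obtain ⟨h1, h2⟩ := hE.exchange h.1 hz hzv hq hzq
    exact ⟨h1, h2.trans h.2⟩
  -- Claim A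
  have claimA : ∀ W', M W' → Phi G ρ W' = m → ∀ K v, Exc G ω W' K v → ρ ∈ insert v K := by
    intro W' h hΦ K v hE
    by_contra hρQ
    obtain ⟨z, q, D, hz, hzv, hq, hzq, hzD, hall, -⟩ := hE.closer hconn hfree hρQ
    have h1 := hMΦ _ (hstep W' h K v hE z q hz hzv hq hzq)
    have h2 := Phi_exchange (G := G) ρ hz (hE.1 hq)
    have h3 := hall q (mem_insert_of_mem hq)
    omega
  have hout : ∀ W' K v, Exc G ω W' K v → ρ ∈ insert v K →
      ∃ z, G.Adj ρ z ∧ z ∉ insert v K := by
    intro W' K v hE hmem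
    exact hρ _ (by rw [card_insert_of_notMem hE.notMem, hE.2.1]) hmem
  -- Claim B
  have claimB : ∀ W', M W' → Phi G ρ W' = m → ρ ∈ W' := by
    intro W' h hΦ
    by_contra hρW
    obtain ⟨K, v, hE⟩ := hexc W' h
    have hρQ := claimA W' h hΦ K v hE
    have hρv : ρ = v := by
      rcases mem_insert.1 hρQ with e | e
      · exact e
      · exact absurd (hE.1 e) hρW
    subst hρv
    obtain ⟨z, hρz, hzQ⟩ := hout W' K ρ hE hρQ
    have hzρ : z ≠ ρ := hρz.ne'
    have hzK : z ∉ K := fun hm => hzQ (mem_insert_of_mem hm)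
    have hzW : z ∉ W' := fun hm => hzK (hE.nbr hfree hm (mem_insert_self _ _) hρz.symm)
    obtain ⟨q, hq, hnq⟩ := hE.split hfree hzQ
    have hqK : q ∈ K := by
      rcases mem_insert.1 hq with e | e
      · exact absurd (e ▸ hρz.symm) hnq
      · exact e
    have hM2 := hstep W' h K ρ hE z q hzW hzρ hqK (Or.inl ⟨hρz.symm, hnq⟩)
    have h2 := Phi_exchange (G := G) ρ hzW (hE.1 hqK)
    have h3 : G.dist ρ z = 1 := SimpleGraph.dist_eq_one_iff_adj.2 hρz
    have h4 : G.dist ρ q = 1 := SimpleGraph.dist_eq_one_iff_adj.2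
      (hE.adj ρ (mem_insert_self _ _) q (mem_insert_of_mem hqK) (fun e => hρW (e ▸ hE.1 hqK)))
    have hΦ2 : Phi G ρ (insert z (W'.erase q)) = m := by omega
    obtain ⟨K', v', hE'⟩ := hexc _ hM2
    obtain ⟨-, c2, -, -, c5⟩ := hE.after hfree hω h.1 hzW hzρ hqK hE'
    rcases mem_insert.1 (claimA _ hM2 hΦ2 K' v' hE') with e | e
    · exact c5 e.symm
    · exact hρW (mem_of_mem_erase (c2 e))
  -- Claim C
  obtain ⟨K, v, hE⟩ := hexc W hMW
  have hρQ := claimA W hMW rfl K v hE
  have hρW := claimB W hMW rfl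
  have hρK : ρ ∈ K := by
    rcases mem_insert.1 hρQ with e | e
    · exact absurd (e ▸ hρW) hE.2.2.1
    · exact e
  obtain ⟨z, hρz, hzQ⟩ := hout W K v hE hρQ
  have hzv : z ≠ v := fun e => hzQ (e ▸ mem_insert_self _ _)
  have hzK : z ∉ K := fun hm => hzQ (mem_insert_of_mem hm)
  have hzW : z ∉ W := fun hm => hzK (hE.nbr hfree hm hρQ hρz.symm)
  have hdz : G.dist ρ z = 1 := SimpleGraph.dist_eq_one_iff_adj.2 hρz
  by_cases hcase : ∃ q ∈ K, q ≠ ρ ∧ ((G.Adj z v ∧ ¬ G.Adj z q) ∨ (¬ G.Adj z v ∧ G.Adj z q))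
  · obtain ⟨q, hq, hqρ, hzq⟩ := hcase
    have hM2 := hstep W hMW K v hE z q hzW hzv hq hzq
    have h2 := Phi_exchange (G := G) ρ hzW (hE.1 hq)
    have h4 : G.dist ρ q = 1 := SimpleGraph.dist_eq_one_iff_adj.2
      (hE.adj ρ hρQ q (mem_insert_of_mem hq) hqρ.symm)
    have hΦ2 : Phi G ρ (insert z (W.erase q)) = m := by omega
    obtain ⟨K', v', hE'⟩ := hexc _ hM2
    obtain ⟨-, -, -, c4, -⟩ := hE.after hfree hω hLR hzW hzv hq hE'
    have hρW2 : ρ ∈ insert z (W.erase q) := mem_insert_of_mem (mem_erase.2 ⟨hqρ.symm, hρW⟩)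
    rcases mem_insert.1 (claimA _ hM2 hΦ2 K' v' hE') with e | e
    · exact hE'.2.2.1 (e ▸ hρW2)
    · exact (Finset.disjoint_left.1 c4 e) hρK
  · push Not at hcase
    have hzav : ¬ G.Adj z v := by
      intro hzav
      obtain ⟨q, hq, hnq⟩ := hE.split hfree hzQ
      have hqK : q ∈ K := by
        rcases mem_insert.1 hq with e | e
        · exact absurd (e ▸ hzav) hnq
        · exact e
      have hqρ : q ≠ ρ := fun e => hnq (e ▸ hρz.symm)
      exact hnq ((hcase q hqK hqρ).1 hzav)
    have hzq : (G.Adj z v ∧ ¬ G.Adj z ρ) ∨ (¬ G.Adj z v ∧ G.Adj z ρ) := Or.inr ⟨hzav, hρz.symm⟩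
    have hM1 := hstep W hMW K v hE z ρ hzW hzv hρK hzq
    have hΦ1 := Phi_exchange (G := G) ρ hzW hρW
    rw [SimpleGraph.dist_self] at hΦ1
    obtain ⟨K', v', hE'⟩ := hexc _ hM1
    obtain ⟨c1, c2, c3, c4, c5⟩ := hE.after hfree hω hLR hzW hzv hρK hE'
    have hρQ' : ρ ∉ insert v' K' := by
      rw [mem_insert]
      rintro (e | e)
      · exact c3 e.symm
      · exact (mem_erase.1 (c2 e)).1 rfl
    obtain ⟨z', q', D, hz', hz'v, hq', hzq', hzD, hall, -⟩ := hE'.closer hconn hfree hρQ'
    have hM2 := hstep _ hM1 K' v' hE' z' q' hz' hz'v hq' hzq'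
    have hΦ2 := Phi_exchange (G := G) ρ hz' (hE'.1 hq')
    have h5 := hMΦ _ hM2
    have h6 := hall q' (mem_insert_of_mem hq')
    rcases Nat.eq_zero_or_pos D with hD | hD
    · -- `z' = ρ`; the vertices of `K'` are not adjacent to `ρ`
      subst hD
      have h7 : G.dist ρ q' ≠ 1 := by
        intro h7
        have hadj := SimpleGraph.dist_eq_one_iff_adj.1 h7
        have hq'W : q' ∈ W := mem_of_mem_erase (c2 hq')
        exact (Finset.disjoint_left.1 c4 hq') (hE.nbr hfree hq'W hρQ hadj.symm)
      omega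
    · have h8 : Phi G ρ (insert z' ((insert z (W.erase ρ)).erase q')) = m := by omega
      have h9 := claimB _ hM2 h8
      rcases mem_insert.1 h9 with e | e
      · rw [← e, SimpleGraph.dist_self] at hzD
        omega
      · rcases mem_insert.1 (mem_of_mem_erase e) with e' | e'
        · exact hρz.ne e'
        · exact (mem_erase.1 e').1 rfl

end main

theorem final (hconn : G.Connected) {ω : ℕ} (hclique : ∃ s : Finset V, G.IsNClique ω s)
    (hfree : G.CliqueFree (ω + 1)) (hω : 3 ≤ ω) (hcard : ω + 1 ≤ Fintype.card V) :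
    ∃ W : Finset V, LR G W ∧ W.card ≤ (ω - 2) * Wᶜ.card := by
  classical
  -- a vertex `ρ` of degree at least `ω`
  obtain ⟨Q, hQ, hQc⟩ := hclique
  obtain ⟨y, hy⟩ : ∃ y, y ∉ Q := by
    by_contra hcon
    push Not at hcon
    have : Q = univ := eq_univ_iff_forall.2 hcon
    rw [this, card_univ] at hQc
    omega
  obtain ⟨x, hx⟩ : Q.Nonempty := card_pos.1 (by omega)
  obtain ⟨p⟩ := hconn.preconnected x y
  obtain ⟨d, -, ha, hb⟩ := p.exists_boundary_dart (↑Q : Set V) hx hy
  have hadj := d.adj
  set a := d.fst with hadef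
  set b := d.snd with hbdef
  have ha' : a ∈ Q := ha
  have hb' : b ∉ Q := hb
  obtain ⟨W, h1, h2, h3⟩ := exists_good (ρ := a) hconn hω hfree (by
    intro R hR haR
    by_contra hcon
    push Not at hcon
    have hsub : insert b (Q.erase a) ⊆ R.erase a := by
      intro z hz
      rcases mem_insert.1 hz with e | e
      · rw [e, mem_erase]
        exact ⟨hadj.ne', hcon b hadj⟩
      · have hza := (mem_erase.1 e).1
        have hzQ := (mem_erase.1 e).2
        exact mem_erase.2 ⟨hza, hcon z (hQ ha' hzQ hza.symm)⟩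
    have h4 := card_le_card hsub
    rw [card_insert_of_notMem (fun h => hb' (mem_of_mem_erase h)), card_erase_of_mem ha', card_erase_of_mem haR,
      hQc, hR] at h4
    omega)
  exact ⟨W, h1, bound_of_no_exc hω hfree h1 h2 h3⟩

end Pool.Agent.P8H50.LMD
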